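import Pool.Agent.helper88.RQ2.Spec

open Set Matroid RadonMin

namespace RadonQ2

/-- **FSP** -/
theorem FSP_proof (hGRA : GRA_stmt) : FSP_stmt := by
  intro V _ _ _ K d X hX
  have hsum : ∀ P : Finset (Finset V), (∀ B ∈ P, B.Nonempty ∧ K B) →
      ∑ B ∈ P, (Module.finrank ℝ (vectorSpan ℝ (B : Set V)) + 1) = ∑ B ∈ P, ra B := by
    intro P hP
    exact Finset.sum_congr rfl fun B hB => (hGRA V B (hP B hB).1).symm
  have hra := hGRA V X hX
  constructor
  · rintro ⟨P, hP, hd, hm, hf, hs⟩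
    rw [hf] at hra
    exact ⟨hra, P, hP, hd, hm, by rw [← hsum P hP, hs, hra]⟩
  · rintro ⟨hr, P, hP, hd, hm, hs⟩
    exact ⟨P, hP, hd, hm, by omega, by rw [hsum P hP, hs, hr]⟩

end RadonQ2
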